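import Pool.Agent.H483C6.Final

/-!
# The exact minimum degree threshold for `C₆`-decompositions
-/

set_option autoImplicit false

namespace Pool.Agent.Results.MP_1bffa4_co.ExactThreshold

open Pool.Agent.H483C6

/-- For all sufficiently large `n`, `threshold n` is the least `d` in `{0, ..., n}` such that every
`C₆`-divisible graph on `n` vertices with minimum degree at least `d` has a
`C₆`-decomposition. -/
theorem result : ∃ n0 : ℕ, ∀ n : ℕ, n0 ≤ n →
    IsLeast {d : ℕ | d ≤ n ∧ ∀ G : SimpleGraph (Fin n), C6Divisible G →
      (∀ v, d ≤ (G.neighborSet v).ncard) → HasC6Decomposition G} (threshold n) :=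
  final

end Pool.Agent.Results.MP_1bffa4_co.ExactThreshold
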